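import Pool.Agent.Y714.KE.Glue
import Pool.Agent.Y714.KE.BasB
import Pool.Agent.Y714.KE.BasD
import Pool.Agent.Y988.KF.Prod

set_option autoImplicit false
set_option linter.unusedSectionVars false
set_option linter.unusedVariables false

/-! Etale algebras: good cells, positivity. -/

namespace Pool.Agent.Y500.KE

open Pool.Agent.Y714.KE
open Pool.Agent.Y714.KF (FI sp ct nm pm ext br gl ubas qf bk el sg bf)
open NumberField FractionalIdeal Module Finset ComplexConjugate MeasureTheory Filter Topology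
open scoped nonZeroDivisors

section

/-- the relative density of a set of residues -/
noncomputable def dn {ι : Type} [Fintype ι] {p : ℕ} (T : Set (ι → ZMod p)) : ℝ :=
  (T.ncard : ℝ) / (p : ℝ) ^ Fintype.card ι

theorem dn_compl {ι : Type} [Fintype ι] {p : ℕ} (hp : p.Prime) (T : Set (ι → ZMod p)) :
    1 - dn T = (Tᶜ.ncard : ℝ) / (p : ℝ) ^ Fintype.card ι := by
  classical
  have : Fact p.Prime := ⟨hp⟩
  have hp0 : (0 : ℝ) < p := by exact_mod_cast hp.pos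
  have h1 : T.ncard + Tᶜ.ncard = p ^ Fintype.card ι := by
    rw [Set.ncard_add_ncard_compl, Nat.card_eq_fintype_card, Fintype.card_fun, ZMod.card]
  unfold dn
  have h2 : (T.ncard : ℝ) + Tᶜ.ncard = (p : ℝ) ^ Fintype.card ι := by exact_mod_cast h1
  field_simp
  linarith

theorem fin_of_bdd {ι : Type} [Fintype ι] {D : Set (ι → ℝ)} (hD : Bornology.IsBounded D)
    (Y : ι → ℝ) (hY : ∀ i, 0 < Y i) : {z : ι → ℤ | (fun i => (z i : ℝ) / Y i) ∈ D}.Finite := by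
  obtain ⟨R, hR⟩ := (Metric.isBounded_iff_subset_closedBall 0).1 hD
  have hfin : {z : ι → ℤ | z ∈ Set.pi Set.univ
      fun i => Set.Icc (-⌈R * Y i⌉) ⌈R * Y i⌉}.Finite :=
    Set.Finite.pi fun _ => Set.finite_Icc _ _
  refine hfin.subset ?_
  intro z hz
  have h1 := hR hz
  rw [mem_closedBall_zero_iff] at h1
  simp only [Set.mem_ofPred_eq, Set.mem_pi, Set.mem_univ, true_implies, Set.mem_Icc]
  intro i
  have h2 := (norm_le_pi_norm (fun i => (z i : ℝ) / Y i) i).trans h1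
  rw [Real.norm_eq_abs, abs_div, abs_of_pos (hY i), div_le_iff₀ (hY i), abs_le] at h2
  constructor
  · have : (-(⌈R * Y i⌉ : ℤ) : ℝ) ≤ z i := by
      have := Int.le_ceil (R * Y i)
      linarith [h2.1]
    exact_mod_cast this
  · have : (z i : ℝ) ≤ (⌈R * Y i⌉ : ℤ) := h2.2.trans (Int.le_ceil _)
    exact_mod_cast this

theorem frontier_sub {X : Type} [TopologicalSpace X] {A B : Set X} (hA : IsOpen A)
    (hAB : A ⊆ B) : frontier A ⊆ closure B \ A := by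
  rw [hA.frontier_eq]
  exact Set.sdiff_subset_sdiff_left (closure_mono hAB)

variable {s : Type} [Fintype s] [DecidableEq s] {K : s → Type} [∀ i, Field (K i)]
  [∀ i, NumberField (K i)]

theorem card_ix : Fintype.card (Ix K ⊕ Ix K) = 2 * dg K := by
  rw [Fintype.card_sum, Fintype.card_sigma]
  simp only [Fintype.card_fin]
  unfold dg
  ring

theorem prod_exp (y : s → ℝ) : ∏ k : Ix K ⊕ Ix K, Real.exp (y (cm k)) = tt (K := K) y := by
  have h1 : ∏ k : Ix K, Real.exp (y k.1) = Real.exp (∑ i, (finrank ℚ (K i) : ℝ) * y i) := by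
    rw [Fintype.prod_sigma, Real.exp_sum]
    refine prod_congr rfl fun i _ => ?_
    change ∏ _j : Fin (finrank ℚ (K i)), Real.exp (y i) = _
    rw [prod_const, card_univ, Fintype.card_fin, ← Real.exp_nat_mul]
  rw [Fintype.prod_sum_type]
  have h2 : ∏ a : Ix K, Real.exp (y (cm (Sum.inl a : Ix K ⊕ Ix K))) =
      Real.exp (∑ i, (finrank ℚ (K i) : ℝ) * y i) := h1
  have h3 : ∏ a : Ix K, Real.exp (y (cm (Sum.inr a : Ix K ⊕ Ix K))) =
      Real.exp (∑ i, (finrank ℚ (K i) : ℝ) * y i) := h1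
  rw [h2, h3, ← Real.exp_add, tt]
  congr 1
  ring

theorem nd_scl (b : Bs K) (y : s → ℝ) (z : Ix K ⊕ Ix K → ℤ)
    (h : ∀ e f : Em K, e ≠ f → br (rw2 b (scl y z) e) (rw2 b (scl y z) f) ≠ 0) :
    ND (pr b z) := by
  intro e f hef h0
  apply h e f hef
  rw [rw2_scl]
  unfold br at h0 ⊢
  simp only [Prod.smul_fst, Prod.smul_snd, smul_eq_mul]
  linear_combination ((Real.exp (-(y e.1)) : ℝ) : ℂ) * ((Real.exp (-(y f.1)) : ℝ) : ℂ) * h0

theorem Dm_subset (b : Bs K) (κ : Ux K → ℝ) (i₀ : s) (δ : ℝ) : Dm b κ i₀ δ ⊆ Dc b κ i₀ δ := by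
  rintro u ⟨h1, h2, h3, h4, h5, h6, h7, h8⟩
  exact ⟨h1.le, h2.le, h3.le, h4.le, h5, h6.le, fun j => ⟨(h7 j).1.le, (h7 j).2.le⟩,
    fun i hi => ⟨(h8 i hi).1.le, (h8 i hi).2.le⟩⟩

theorem Dm_anti (b : Bs K) (κ : Ux K → ℝ) (i₀ : s) {δ δ' : ℝ} (h0 : 0 < δ) (h : δ ≤ δ') :
    Dm b κ i₀ δ' ⊆ Dm b κ i₀ δ := by
  rintro u ⟨h1, h2⟩
  exact ⟨lt_of_le_of_lt (by gcongr) h1, h2⟩

theorem gcu (h1 : S_RBM K) (h2 : S_MIB) (h3 : S_EUN) (h4 : S_LR K) (h5 : S_OPB K)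
    (h6 : S_VOL K) : S_GCU K := by
  rintro hodd hn I b hb κ i₀ hκ ⟨P, hPI, hPc, hPl⟩
  obtain ⟨C, hC, hLR⟩ := h4 hodd hn I b hb
  choose! T hT using hLR
  obtain ⟨z0, rfl⟩ := exists_pr hb hPc
  have hcard := card_ix (K := K)
  -- the densities
  obtain ⟨d, hd, hprod⟩ := Pool.Agent.Y988.KF.prod C (fun p => dn (T p)) (by
    intro p hp
    have hp0 : (0 : ℝ) < p := by exact_mod_cast hp.pos
    have : Fact p.Prime := ⟨hp⟩
    have hne : (T p).Nonempty := ⟨_, ((hT p hp).1 z0 hPI).1 (hPl p hp)⟩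
    have h1 : 0 < (T p).ncard := (Set.ncard_pos (Set.toFinite _)).2 hne
    have h2 := dn_compl hp (T p)
    refine ⟨?_, ?_, ?_⟩
    · unfold dn; positivity
    · have : 0 ≤ 1 - dn (T p) := by rw [h2]; positivity
      linarith
    · rw [h2, hcard, div_le_div_iff₀ (by positivity) (by positivity)]
      have h3 := (hT p hp).2
      have e : (p : ℝ) ^ (2 * dg K) = (p : ℝ) ^ (2 * dg K - 2) * (p : ℝ) ^ 2 := by
        rw [← pow_add]; congr 1; omega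
      rw [e, ← mul_assoc]
      gcongr)
  obtain ⟨δ₀, hδ₀, hvol⟩ := h6 hodd (by omega) b κ i₀ hκ
  have hfinvol : ∀ δ : ℝ, 0 < δ → volume (Dm b κ i₀ δ) ≠ ⊤ := fun δ hδ =>
    ((h5 hodd (by omega) b κ i₀ δ hδ).2.subset (Dm_subset b κ i₀ δ)).measure_lt_top.ne
  obtain ⟨V, hV⟩ : ∃ V, V = volume.real (Dm b κ i₀ δ₀) := ⟨_, rfl⟩
  have hVpos : 0 < V := by
    rw [hV, measureReal_def]
    exact ENNReal.toReal_pos hvol.ne' (hfinvol δ₀ hδ₀)
  obtain ⟨η₀, hη₀⟩ : ∃ η₀, η₀ = V * d / 16 := ⟨_, rfl⟩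
  have hη₀pos : 0 < η₀ := by
    rw [hη₀]
    positivity
  obtain ⟨δ₁, hδ₁, hRBM⟩ := h1 hodd (by omega) I b hb κ i₀ hκ η₀ hη₀pos
  obtain ⟨δ, hδ⟩ : ∃ δ, δ = min δ₀ δ₁ := ⟨_, rfl⟩
  have hδpos : 0 < δ := by
    rw [hδ]
    exact lt_min hδ₀ hδ₁
  obtain ⟨L₀, hL₀, hR⟩ := hRBM δ hδpos (by rw [hδ]; exact min_le_right _ _)
  obtain ⟨hopen, hbddc⟩ := h5 hodd (by omega) b κ i₀ δ hδpos
  have hbdd : Bornology.IsBounded (Dm b κ i₀ δ) := hbddc.subset (Dm_subset b κ i₀ δ)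
  have hfr : volume (frontier (Dm b κ i₀ δ)) = 0 :=
    measure_mono_null (frontier_sub hopen (Dm_subset b κ i₀ δ)) (hκ δ hδpos)
  obtain ⟨C', hC', hM⟩ := h2 (Ix K ⊕ Ix K) (Dm b κ i₀ δ) C hbdd (by rw [hcard]; omega)
  obtain ⟨P₀, hP₀⟩ : ∃ P₀ : ℕ, 1 ≤ P₀ ∧ C' / (P₀ : ℝ) ≤ η₀ := by
    obtain ⟨P, hP⟩ := exists_nat_gt (C' / η₀)
    refine ⟨P + 1, by omega, ?_⟩
    rw [div_le_iff₀ (by positivity)]
    rw [div_lt_iff₀ hη₀pos] at hP
    push_cast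
    nlinarith
  have hP₀r : (1 : ℝ) ≤ P₀ := by exact_mod_cast hP₀.1
  have hM' := hM T (fun p hp => by rw [hcard]; exact (hT p hp).2) P₀
  obtain ⟨L, hL, hE⟩ := h3 (Ix K ⊕ Ix K) (Dm b κ i₀ δ)
    (Set.range fun (y : s → ℝ) (k : Ix K ⊕ Ix K) => Real.exp (y (cm k)))
    (fun z => ND (pr b z)) (fun p z => Loc p (cf I) (LT (pr b z))) T hbdd hopen hfr (by
      rintro Y ⟨y, rfl⟩ z _ hz
      exact nd_scl b y z hz.2.2.2.2.1) (fun p hp z hz => (hT p hp).1 z (hz.ind (by omega)))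
    P₀ η₀ hη₀pos
  obtain ⟨ℓ₀, hℓ₀⟩ : ∃ ℓ₀, ℓ₀ = volume.real (Dm b κ i₀ δ) *
    ∏ p ∈ (Finset.range (P₀ + 1)).filter Nat.Prime,
      ((T p).ncard : ℝ) / (p : ℝ) ^ Fintype.card (Ix K ⊕ Ix K) := ⟨_, rfl⟩
  have hℓ : V * d ≤ ℓ₀ := by
    have hVδ : V ≤ volume.real (Dm b κ i₀ δ) := by
      rw [hV]
      exact measureReal_mono (Dm_anti b κ i₀ hδpos (by rw [hδ]; exact min_le_left _ _))
        (hfinvol δ hδpos)
    have hd' := hprod ((Finset.range (P₀ + 1)).filter Nat.Prime)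
      (fun p hp => (Finset.mem_filter.1 hp).2)
    rw [hℓ₀]
    exact mul_le_mul hVδ hd' hd.le measureReal_nonneg
  rw [← hℓ₀] at hE
  refine ⟨2 * η₀, ℓ₀ / 2, max (P₀ : ℝ) (max L L₀), by positivity, by nlinarith, ?_⟩
  intro X y hX hXy
  have hX1 : (P₀ : ℝ) ≤ X := (le_max_left _ _).trans hX
  have hX2 : L ≤ X := ((le_max_left _ _).trans (le_max_right _ _)).trans hX
  have hX3 : L₀ ≤ X := ((le_max_right _ _).trans (le_max_right _ _)).trans hX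
  have htt : 0 < tt (K := K) y := Real.exp_pos _
  have e1 := hR y (fun i => hX3.trans (hXy i))
    (fun M => ∀ p : ℕ, p.Prime → (p : ℝ) ≤ X → Loc p (cf I) M)
  have e2 := hM' X (fun k => Real.exp (y (cm k))) hP₀r (fun k => hXy _) (fun k => Real.exp_pos _)
  have e3 := hE (fun k => Real.exp (y (cm k))) ⟨y, rfl⟩ (fun k => hX2.trans (hXy _))
  rw [prod_exp] at e2 e3
  obtain ⟨E₀, hE₀⟩ : ∃ E₀ : Set (Ix K ⊕ Ix K → ℤ), E₀ = {z | scl y z ∈ Dm b κ i₀ δ ∧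
    ∀ p : ℕ, p.Prime → p ≤ P₀ → Loc p (cf I) (LT (pr b z))} := ⟨_, rfl⟩
  obtain ⟨E₁, hE₁⟩ : ∃ E₁ : Set (Ix K ⊕ Ix K → ℤ), E₁ = {z | scl y z ∈ Dm b κ i₀ δ ∧
    ∀ p : ℕ, p.Prime → (p : ℝ) ≤ X → Loc p (cf I) (LT (pr b z))} := ⟨_, rfl⟩
  obtain ⟨F, hF⟩ : ∃ F : Set (Ix K ⊕ Ix K → ℤ), F = {z | scl y z ∈ Dm b κ i₀ δ ∧
    ∃ p : ℕ, p.Prime ∧ (P₀ : ℝ) < p ∧ (p : ℝ) ≤ X ∧ (fun i => (z i : ZMod p)) ∉ T p} := ⟨_, rfl⟩
  have hfin : {z : Ix K ⊕ Ix K → ℤ | scl y z ∈ Dm b κ i₀ δ}.Finite :=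
    fin_of_bdd hbdd (fun k => Real.exp (y (cm k))) (fun k => Real.exp_pos _)
  have hE₀fin : E₀.Finite := hfin.subset (by rw [hE₀]; exact fun z hz => hz.1)
  have hE₁fin : E₁.Finite := hfin.subset (by rw [hE₁]; exact fun z hz => hz.1)
  have hFfin : F.Finite := hfin.subset (by rw [hF]; exact fun z hz => hz.1)
  have hsub1 : E₁ ⊆ E₀ := by
    rw [hE₀, hE₁]
    exact fun z hz => ⟨hz.1, fun p hp hpP => hz.2 p hp (le_trans (by exact_mod_cast hpP) hX1)⟩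
  have hsub2 : E₀ ⊆ E₁ ∪ F := by
    intro z hz
    by_cases h : ∀ p : ℕ, p.Prime → (p : ℝ) ≤ X → Loc p (cf I) (LT (pr b z))
    · left
      rw [hE₀] at hz
      rw [hE₁]
      exact ⟨hz.1, h⟩
    · right
      push Not at h
      obtain ⟨p, hp, hpX, hpl⟩ := h
      rw [hE₀] at hz
      rw [hF]
      refine ⟨hz.1, p, hp, ?_, hpX, ?_⟩
      · by_contra hcon
        exact hpl (hz.2 p hp (by exact_mod_cast not_lt.1 hcon))
      · intro h7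
        exact hpl (((hT p hp).1 z ((nd_scl b y z hz.1.2.2.2.2.1).ind (by omega))).2 h7)
  have hle1 : (E₁.ncard : ℝ) ≤ E₀.ncard := by exact_mod_cast Set.ncard_le_ncard hsub1 hE₀fin
  have hle2 : (E₀.ncard : ℝ) ≤ E₁.ncard + F.ncard := by
    have h7 := (Set.ncard_le_ncard hsub2 (hE₁fin.union hFfin)).trans (Set.ncard_union_le _ _)
    exact_mod_cast h7
  have hFle : (F.ncard : ℝ) ≤ η₀ * tt (K := K) y := by
    have h7 : (F.ncard : ℝ) ≤ C' * tt (K := K) y / P₀ := by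
      rw [hF]
      exact e2
    refine h7.trans ?_
    have h8 : C' * tt (K := K) y / P₀ = C' / P₀ * tt (K := K) y := by ring
    rw [h8]
    exact mul_le_mul_of_nonneg_right hP₀.2 htt.le
  have e3' : |(E₀.ncard : ℝ) / tt (K := K) y - ℓ₀| ≤ η₀ := by
    rw [hE₀]
    exact e3
  have e1' : |2 * ({M ∈ SY κ i₀ (cf I) y | ∀ p : ℕ, p.Prime → (p : ℝ) ≤ X →
      Loc p (cf I) M}.ncard : ℝ) - (E₁.ncard : ℝ)| ≤ η₀ * tt (K := K) y := by
    rw [hE₁]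
    exact e1
  obtain ⟨N, hN⟩ : ∃ N : ℝ, N = ({M ∈ SY κ i₀ (cf I) y | ∀ p : ℕ, p.Prime → (p : ℝ) ≤ X →
      Loc p (cf I) M}.ncard : ℝ) := ⟨_, rfl⟩
  rw [← hN] at e1' ⊢
  have e4 : |(E₀.ncard : ℝ) - ℓ₀ * tt (K := K) y| ≤ η₀ * tt (K := K) y := by
    have h7 : (E₀.ncard : ℝ) - ℓ₀ * tt (K := K) y =
        ((E₀.ncard : ℝ) / tt (K := K) y - ℓ₀) * tt (K := K) y := by
      field_simp
    rw [h7, abs_mul, abs_of_pos htt]
    exact mul_le_mul_of_nonneg_right e3' htt.le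
  have e5 : N / tt (K := K) y - ℓ₀ / 2 = (N - ℓ₀ / 2 * tt (K := K) y) / tt (K := K) y := by
    field_simp
  rw [e5, abs_div, abs_of_pos htt, div_le_iff₀ htt]
  rw [abs_le] at e1' e4 ⊢
  have hpos : 0 < η₀ * tt (K := K) y := by positivity
  constructor
  · nlinarith [e1'.1, e4.1]
  · nlinarith [e1'.2, e4.2]

end

end Pool.Agent.Y500.KE
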